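import Pool.Agent.TH948.KK.Defs

set_option autoImplicit false
set_option linter.unusedSectionVars false

namespace Pool.Agent.TH948.KK

open Finset
open Pool.Agent.TH965.Spread

section aux

variable {ι X : Type*} [Fintype ι] [DecidableEq X]

/-- Sum of `μ` over the indices whose set contains `S`. -/
noncomputable def pS (T : ι → Finset X) (μ : ι → ℝ) (S : Finset X) : ℝ :=
  ∑ i with S ⊆ T i, μ i

lemma pS_add (T : ι → Finset X) (μ δ : ι → ℝ) (l : ℝ) (S : Finset X) :
    pS T (fun i => μ i + l * δ i) S = pS T μ S + l * pS T δ S := by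
  unfold pS
  rw [Finset.sum_add_distrib, Finset.mul_sum]

/-- The polytope of admissible weights. -/
def Pol (ν : ι → ℝ) (T : ι → Finset X) (A p : ℝ) : Set (ι → ℝ) :=
  {μ | (∀ i, 0 ≤ μ i) ∧ ∑ i, μ i = 1 ∧
    (∀ S : Finset X, S.Nonempty → pS T μ S ≤ A * p ^ S.card) ∧ (∀ i, ν i = 0 → μ i = 0)}

lemma isClosed_Pol (ν : ι → ℝ) (T : ι → Finset X) (A p : ℝ) : IsClosed (Pol ν T A p) := by
  have e : Pol ν T A p = (⋂ i, {μ : ι → ℝ | 0 ≤ μ i}) ∩ ({μ : ι → ℝ | ∑ i, μ i = 1} ∩
      ((⋂ S : Finset X, ⋂ _ : S.Nonempty, {μ : ι → ℝ | pS T μ S ≤ A * p ^ S.card}) ∩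
      (⋂ i, ⋂ _ : ν i = 0, {μ : ι → ℝ | μ i = 0}))) := by
    ext μ
    simp [Pol]
  rw [e]
  refine IsClosed.inter (isClosed_iInter fun i => ?_) (IsClosed.inter ?_ (IsClosed.inter
    (isClosed_iInter fun S => isClosed_iInter fun _ => ?_)
    (isClosed_iInter fun i => isClosed_iInter fun _ => ?_)))
  · exact isClosed_le continuous_const (continuous_apply i)
  · exact isClosed_eq (continuous_finsetSum _ fun i _ => continuous_apply i) continuous_const
  · refine isClosed_le ?_ continuous_const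
    unfold pS
    exact continuous_finsetSum _ fun i _ => continuous_apply i
  · exact isClosed_eq (continuous_apply i) continuous_const

lemma isCompact_Pol (ν : ι → ℝ) (T : ι → Finset X) (A p : ℝ) : IsCompact (Pol ν T A p) := by
  refine (isCompact_univ_pi fun _ : ι => isCompact_Icc (a := (0 : ℝ)) (b := 1)).of_isClosed_subset
    (isClosed_Pol ν T A p) ?_
  intro μ hμ i _
  refine ⟨hμ.1 i, ?_⟩
  rw [← hμ.2.1]
  exact Finset.single_le_sum (fun j _ => hμ.1 j) (Finset.mem_univ i)

end aux

section main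

variable {ι X : Type*} [Fintype ι] [DecidableEq X]

open scoped Classical in
/-- The tight sets of size at most `t`. -/
noncomputable def Tight (T : ι → Finset X) (μ : ι → ℝ) (A p : ℝ) (t : ℕ) : Finset (Finset X) :=
  ((Finset.univ.biUnion T).powerset).filter
    (fun S => S.Nonempty ∧ S.card ≤ t ∧ pS T μ S = A * p ^ S.card)

open scoped Classical in
/-- The indices in the support whose set has exactly `t` elements. -/
noncomputable def It (T : ι → Finset X) (μ : ι → ℝ) (t : ℕ) : Finset ι :=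
  Finset.univ.filter (fun i => μ i ≠ 0 ∧ (T i).card = t)

lemma exists_rel (T : ι → Finset X) (μ : ι → ℝ) (A p : ℝ) (t : ℕ)
    (h : 1 + (Tight T μ A p t).card < (It T μ t).card) :
    ∃ δ : ι → ℝ, (∃ i, δ i ≠ 0) ∧ (∀ i, δ i ≠ 0 → i ∈ It T μ t) ∧ ∑ i, δ i = 0 ∧
      ∀ S ∈ Tight T μ A p t, pS T δ S = 0 := by
  classical
  let M : Matrix (Option {S // S ∈ Tight T μ A p t}) {i // i ∈ It T μ t} ℝ := fun o i =>
    match o with
    | none => 1
    | some S => if S.1 ⊆ T i.1 then 1 else 0
  have hk : LinearMap.ker (Matrix.mulVecLin M) ≠ ⊥ := by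
    apply LinearMap.ker_ne_bot_of_finrank_lt
    rw [Module.finrank_fintype_fun_eq_card, Module.finrank_fintype_fun_eq_card,
      Fintype.card_option, Fintype.card_coe, Fintype.card_coe]
    omega
  obtain ⟨d, hd, hd0⟩ := (Submodule.ne_bot_iff _).1 hk
  rw [LinearMap.mem_ker, Matrix.mulVecLin_apply] at hd
  let δ : ι → ℝ := fun i => if hi : i ∈ It T μ t then d ⟨i, hi⟩ else 0
  have hsum : ∀ g : ι → ℝ, ∑ i, g i * δ i = ∑ i : {i // i ∈ It T μ t}, g i.1 * d i := by
    intro g
    have e1 : ∑ i, g i * δ i = ∑ i ∈ It T μ t, g i * δ i := by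
      symm
      apply Finset.sum_subset (Finset.subset_univ _)
      intro i _ hi
      simp [δ, hi]
    rw [e1, ← Finset.sum_coe_sort]
    apply Finset.sum_congr rfl
    intro i _
    simp [δ]
  refine ⟨δ, ?_, ?_, ?_, ?_⟩
  · obtain ⟨i, hi⟩ : ∃ i, d i ≠ 0 := by
      by_contra hcon
      push Not at hcon
      exact hd0 (funext hcon)
    exact ⟨i.1, by simpa [δ] using hi⟩
  · intro i hi
    by_contra hcon
    exact hi (by simp [δ, hcon])
  · have h1 := congrFun hd none
    have h2 := hsum (fun _ => 1)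
    simp only [one_mul] at h2
    rw [h2]
    simpa [M, Matrix.mulVec, dotProduct] using h1
  · intro S hS
    have h1 := congrFun hd (some ⟨S, hS⟩)
    have h2 := hsum (fun i => if S ⊆ T i then 1 else 0)
    have h3 : pS T δ S = ∑ i, (if S ⊆ T i then (1 : ℝ) else 0) * δ i := by
      unfold pS
      rw [Finset.sum_filter]
      apply Finset.sum_congr rfl
      intro i _
      split_ifs <;> simp
    rw [h3, h2]
    simpa [M, Matrix.mulVec, dotProduct] using h1

lemma card_It_le (ν : ι → ℝ) (T : ι → Finset X) (A p : ℝ) (μ : ι → ℝ)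
    (hμ : μ ∈ Pol ν T A p)
    (hmax : ∀ μ' ∈ Pol ν T A p, ∑ i, μ' i ^ 2 ≤ ∑ i, μ i ^ 2) (t : ℕ) :
    (It T μ t).card ≤ 1 + (Tight T μ A p t).card := by
  classical
  by_contra hcon
  push Not at hcon
  obtain ⟨δ, ⟨i₀, hi₀⟩, hδI, hδ0, hδT⟩ := exists_rel T μ A p t hcon
  have hcont : ∀ S : Finset X, Continuous (fun l : ℝ => pS T μ S + l * pS T δ S) := fun S => by
    fun_prop
  -- for small l both perturbations are admissible
  have hsmall : ∀ᶠ l : ℝ in nhds 0, (fun i => μ i + l * δ i) ∈ Pol ν T A p := by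
    have h1 : ∀ᶠ l : ℝ in nhds 0, ∀ i : ι, 0 ≤ μ i + l * δ i := by
      rw [Filter.eventually_all]
      intro i
      by_cases hi : δ i = 0
      · exact Filter.Eventually.of_forall fun l => by simpa [hi] using hμ.1 i
      · have hpos : 0 < μ i := by
          have := (Finset.mem_filter.1 (hδI i hi)).2.1
          exact lt_of_le_of_ne (hμ.1 i) (Ne.symm this)
        have hc : Continuous (fun l : ℝ => μ i + l * δ i) := by fun_prop
        have hm : (fun l : ℝ => μ i + l * δ i) 0 ∈ Set.Ioi (0 : ℝ) := by simpa using hpos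
        filter_upwards [hc.continuousAt.eventually_mem (isOpen_Ioi.mem_nhds hm)] with l hl
        exact le_of_lt hl
    have h2 : ∀ᶠ l : ℝ in nhds 0, ∀ S ∈ (Finset.univ.biUnion T).powerset, S.Nonempty →
        pS T μ S + l * pS T δ S ≤ A * p ^ S.card := by
      rw [Filter.eventually_all_finset]
      intro S hS
      by_cases hne : S.Nonempty
      · by_cases hz : pS T δ S = 0
        · exact Filter.Eventually.of_forall fun l _ => by simpa [hz] using hμ.2.2.1 S hne
        · have hcard : S.card ≤ t := by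
            by_contra hlt
            apply hz
            unfold pS
            apply Finset.sum_eq_zero
            intro i hi
            by_contra hne'
            have h3 := (Finset.mem_filter.1 (hδI i hne')).2.2
            have h4 := Finset.card_le_card (Finset.mem_filter.1 hi).2
            omega
          have hslack : pS T μ S < A * p ^ S.card := by
            refine lt_of_le_of_ne (hμ.2.2.1 S hne) ?_
            intro he
            apply hz
            apply hδT
            unfold Tight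
            rw [Finset.mem_filter]
            exact ⟨hS, hne, hcard, he⟩
          have hm : (fun l : ℝ => pS T μ S + l * pS T δ S) 0 ∈ Set.Iio (A * p ^ S.card) := by
            simpa using hslack
          filter_upwards [(hcont S).continuousAt.eventually_mem (isOpen_Iio.mem_nhds hm)]
            with l hl _
          exact le_of_lt hl
      · exact Filter.Eventually.of_forall fun l hh => absurd hh hne
    filter_upwards [h1, h2] with l hl1 hl2
    refine ⟨hl1, ?_, ?_, ?_⟩
    · rw [Finset.sum_add_distrib, ← Finset.mul_sum, hδ0, hμ.2.1]; ring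
    · intro S hS
      rw [pS_add]
      by_cases hU : S ∈ (Finset.univ.biUnion T).powerset
      · exact hl2 S hU hS
      · have hz : pS T δ S = 0 := by
          unfold pS
          apply Finset.sum_eq_zero
          intro i hi
          exfalso
          apply hU
          rw [Finset.mem_powerset]
          exact ((Finset.mem_filter.1 hi).2).trans (Finset.subset_biUnion_of_mem T (Finset.mem_univ i))
        rw [hz, mul_zero, add_zero]
        exact hμ.2.2.1 S hS
    · intro i hi
      have hz : δ i = 0 := by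
        by_contra hne
        exact (Finset.mem_filter.1 (hδI i hne)).2.1 (hμ.2.2.2 i hi)
      show μ i + l * δ i = 0
      rw [hz, mul_zero, add_zero]
      exact hμ.2.2.2 i hi
  have hsmall' : ∀ᶠ l : ℝ in nhds 0, (fun i => μ i + (-l) * δ i) ∈ Pol ν T A p := by
    have hneg : Filter.Tendsto (fun l : ℝ => -l) (nhds 0) (nhds 0) := by
      have := (continuous_neg (G := ℝ)).tendsto 0
      simpa using this
    exact hneg.eventually hsmall
  obtain ⟨l, ⟨hl1, hl2⟩, hl0⟩ : ∃ l : ℝ, ((fun i => μ i + l * δ i) ∈ Pol ν T A p ∧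
      (fun i => μ i + (-l) * δ i) ∈ Pol ν T A p) ∧ 0 < l := by
    have h3 : ∀ᶠ l : ℝ in nhdsWithin 0 (Set.Ioi 0), ((fun i => μ i + l * δ i) ∈ Pol ν T A p ∧
      (fun i => μ i + (-l) * δ i) ∈ Pol ν T A p) ∧ 0 < l := by
      filter_upwards [(hsmall.and hsmall').filter_mono nhdsWithin_le_nhds,
        self_mem_nhdsWithin] with l h4 h5
      exact ⟨h4, h5⟩
    exact h3.exists
  have e1 := hmax _ hl1
  have e2 := hmax _ hl2
  have e3 : ∑ i, (μ i + l * δ i) ^ 2 + ∑ i, (μ i + (-l) * δ i) ^ 2
      = 2 * ∑ i, μ i ^ 2 + 2 * l ^ 2 * ∑ i, δ i ^ 2 := by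
    rw [Finset.mul_sum, Finset.mul_sum, ← Finset.sum_add_distrib, ← Finset.sum_add_distrib]
    apply Finset.sum_congr rfl
    intro i _
    ring
  have e4 : 0 < ∑ i, δ i ^ 2 :=
    Finset.sum_pos' (fun i _ => sq_nonneg _) ⟨i₀, Finset.mem_univ _, by positivity⟩
  have e5 : 0 < 2 * l ^ 2 * ∑ i, δ i ^ 2 := by positivity
  linarith

end main

lemma prune {ι X : Type*} [Fintype ι] [DecidableEq X] (ν : ι → ℝ) (T : ι → Finset X) (a : ℕ)
    (A p : ℝ) (hA : 1 ≤ A) (hp0 : 0 < p) (hp1 : p ≤ 1) (h0 : ∀ i, 0 ≤ ν i) (h1 : ∑ i, ν i = 1)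
    (hsp : ∀ S : Finset X, S.Nonempty → ∑ i with S ⊆ T i, ν i ≤ A * p ^ S.card)
    (hT : ∀ i, ν i ≠ 0 → (T i).card ≤ a) :
    ∃ ν' : ι → ℝ, (∀ i, 0 ≤ ν' i) ∧ ∑ i, ν' i = 1 ∧
      (∀ S : Finset X, S.Nonempty → ∑ i with S ⊆ T i, ν' i ≤ A * p ^ S.card) ∧
      (∀ i, ν' i ≠ 0 → ν i ≠ 0) ∧
      ∑ i, (open scoped Classical in if ν' i ≠ 0 then p ^ (T i).card else 0)
        ≤ 2 ^ (2 * a + 1) := by
  classical
  have hne : (Pol ν T A p).Nonempty := ⟨ν, h0, h1, hsp, fun i hi => hi⟩
  obtain ⟨μ, hμ, hmax⟩ := (isCompact_Pol ν T A p).exists_isMaxOn hne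
    (f := fun μ : ι → ℝ => ∑ i, μ i ^ 2) (by fun_prop)
  have hmax' : ∀ μ' ∈ Pol ν T A p, ∑ i, μ' i ^ 2 ≤ ∑ i, μ i ^ 2 := fun μ' h => hmax h
  have hsup : ∀ i, μ i ≠ 0 → (T i).card ≤ a := fun i hi =>
    hT i (fun h => hi (hμ.2.2.2 i h))
  refine ⟨μ, hμ.1, hμ.2.1, hμ.2.2.1, fun i hi h => hi (hμ.2.2.2 i h), ?_⟩
  -- number of tight sets
  have htight : ∀ t, ((Tight T μ A p t).card : ℝ) * p ^ t ≤ 2 ^ a := by
    intro t
    have b1 : ((Tight T μ A p t).card : ℝ) * p ^ t ≤ ∑ S ∈ Tight T μ A p t, pS T μ S := by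
      rw [← nsmul_eq_mul, ← Finset.sum_const]
      apply Finset.sum_le_sum
      intro S hS
      have hS' := (Finset.mem_filter.1 hS).2
      rw [hS'.2.2]
      calc p ^ t ≤ p ^ S.card := pow_le_pow_of_le_one hp0.le hp1 hS'.2.1
        _ ≤ A * p ^ S.card := by
          have := pow_pos hp0 S.card
          nlinarith
    have b2 : ∑ S ∈ Tight T μ A p t, pS T μ S
        = ∑ i, μ i * ((Tight T μ A p t).filter (fun S => S ⊆ T i)).card := by
      unfold pS
      simp_rw [Finset.sum_filter]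
      rw [Finset.sum_comm]
      apply Finset.sum_congr rfl
      intro i _
      rw [← Finset.sum_filter, Finset.sum_const, nsmul_eq_mul, mul_comm]
    have b3 : ∑ i, μ i * (((Tight T μ A p t).filter (fun S => S ⊆ T i)).card : ℝ)
        ≤ ∑ i, μ i * 2 ^ a := by
      apply Finset.sum_le_sum
      intro i _
      by_cases hi : μ i = 0
      · simp [hi]
      · apply mul_le_mul_of_nonneg_left _ (hμ.1 i)
        have c1 : ((Tight T μ A p t).filter (fun S => S ⊆ T i)).card ≤ 2 ^ a := by
          calc ((Tight T μ A p t).filter (fun S => S ⊆ T i)).card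
              ≤ ((T i).powerset).card := by
                apply Finset.card_le_card
                intro S hS
                exact Finset.mem_powerset.2 (Finset.mem_filter.1 hS).2
            _ = 2 ^ (T i).card := Finset.card_powerset _
            _ ≤ 2 ^ a := Nat.pow_le_pow_right (by norm_num) (hsup i hi)
        exact_mod_cast c1
    rw [← Finset.sum_mul, hμ.2.1, one_mul] at b3
    linarith [b2 ▸ b1]
  have hIt : ∀ t, ((It T μ t).card : ℝ) * p ^ t ≤ 1 + 2 ^ a := by
    intro t
    have c1 := card_It_le ν T A p μ hμ hmax' t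
    have c2 : ((It T μ t).card : ℝ) ≤ 1 + ((Tight T μ A p t).card : ℝ) := by exact_mod_cast c1
    have c3 : p ^ t ≤ 1 := pow_le_one₀ hp0.le hp1
    have c4 := pow_pos hp0 t
    calc ((It T μ t).card : ℝ) * p ^ t ≤ (1 + ((Tight T μ A p t).card : ℝ)) * p ^ t :=
          mul_le_mul_of_nonneg_right c2 c4.le
      _ = p ^ t + ((Tight T μ A p t).card : ℝ) * p ^ t := by ring
      _ ≤ 1 + 2 ^ a := add_le_add c3 (htight t)
  have hfin : ∑ i, (if μ i ≠ 0 then p ^ (T i).card else 0)
      = ∑ t ∈ Finset.range (a + 1), ((It T μ t).card : ℝ) * p ^ t := by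
    rw [← Finset.sum_filter]
    rw [← Finset.sum_fiberwise_of_maps_to (s := Finset.univ.filter (fun i => μ i ≠ 0))
      (t := Finset.range (a + 1)) (g := fun i => (T i).card)
      (fun i hi => Finset.mem_range.2 (Nat.lt_succ_of_le (hsup i (Finset.mem_filter.1 hi).2)))]
    apply Finset.sum_congr rfl
    intro t _
    rw [Finset.filter_filter]
    have e : Finset.univ.filter (fun i => μ i ≠ 0 ∧ (T i).card = t) = It T μ t := by
      unfold It
      ext i
      simp
    rw [e, ← nsmul_eq_mul, ← Finset.sum_const]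
    apply Finset.sum_congr rfl
    intro i hi
    rw [(Finset.mem_filter.1 hi).2.2]
  have hle : ∑ i, (if μ i ≠ 0 then p ^ (T i).card else 0) ≤ 2 ^ (2 * a + 1) := by
    rw [hfin]
    calc ∑ t ∈ Finset.range (a + 1), ((It T μ t).card : ℝ) * p ^ t
        ≤ ∑ _t ∈ Finset.range (a + 1), ((1 : ℝ) + 2 ^ a) := Finset.sum_le_sum fun t _ => hIt t
      _ = ((a : ℝ) + 1) * (1 + 2 ^ a) := by
        rw [Finset.sum_const, Finset.card_range, nsmul_eq_mul]; push_cast; ring
      _ ≤ 2 ^ a * 2 ^ (a + 1) := by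
        have d1 : ((a : ℝ) + 1) ≤ 2 ^ a := by
          have : a + 1 ≤ 2 ^ a := Nat.lt_two_pow_self
          exact_mod_cast this
        have d2 : (1 : ℝ) + 2 ^ a ≤ 2 ^ (a + 1) := by
          have : (1 : ℝ) ≤ 2 ^ a := one_le_pow₀ (by norm_num)
          rw [pow_succ]; linarith
        have d3 : (0 : ℝ) ≤ 1 + 2 ^ a := by positivity
        exact mul_le_mul d1 d2 d3 (by positivity)
      _ = 2 ^ (2 * a + 1) := by rw [← pow_add]; congr 1; ring
  convert hle using 3

end Pool.Agent.TH948.KK
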